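import Pool.Agent.Helper17.NN.Defs
import Pool.Agent.Helper21.SN.Sl2

/-!
MP_e2c9e7_nt: the standard conjecture `B` and purity, if the correspondences homologous to zero act as
zero on the cycles homologous to zero.
-/

set_option autoImplicit false

open CategoryTheory CategoryTheory.Limits

namespace Pool.Agent.Helper21.NN

open Pool.Agent.Helper17.NN Pool.Agent.Helper21.HL

universe u v w

variable {𝒱 : Type u} [Category.{v} 𝒱] {S : ChowTheory.{u, v, w} 𝒱}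

/-! ### The grading by the integers -/

theorem mem_grZ_nat {X : 𝒱} {i : ℕ} {a : S.A X} : a ∈ S.grZ X i ↔ a ∈ S.gr X i := by
  rw [ChowTheory.grZ, if_pos (Int.natCast_nonneg i), Int.toNat_natCast]

theorem grZ_neg {X : 𝒱} {i : ℤ} (hi : i < 0) {a : S.A X} (ha : a ∈ S.grZ X i) : a = 0 := by
  rw [ChowTheory.grZ, if_neg (not_le.2 hi)] at ha
  exact (Submodule.mem_bot ℚ).1 ha

/-- elements of `grZ` are zero or of some codimension in `ℕ` -/
theorem grZ_cases {X : 𝒱} {i : ℤ} {a : S.A X} (ha : a ∈ S.grZ X i) :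
    a = 0 ∨ ∃ m : ℕ, i = m ∧ a ∈ S.gr X m := by
  rcases lt_or_ge i 0 with hi | hi
  · exact Or.inl (grZ_neg hi ha)
  · obtain ⟨m, rfl⟩ := Int.eq_ofNat_of_zero_le hi
    exact Or.inr ⟨m, rfl, mem_grZ_nat.1 ha⟩

theorem grZ_large (hS : S.Graded) {X : 𝒱} {i : ℤ} (hi : (S.dim X : ℤ) < i) {a : S.A X}
    (ha : a ∈ S.grZ X i) : a = 0 := by
  rcases grZ_cases ha with h | ⟨m, rfl, hm⟩
  · exact h
  · exact hS.gr_large (by omega) hm

theorem mul_grZ (hS : S.Graded) {X : 𝒱} {i j : ℤ} {a b : S.A X} (ha : a ∈ S.grZ X i)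
    (hb : b ∈ S.grZ X j) : a * b ∈ S.grZ X (i + j) := by
  rcases grZ_cases ha with rfl | ⟨m, rfl, hm⟩
  · rw [zero_mul]
    exact Submodule.zero_mem _
  · rcases grZ_cases hb with rfl | ⟨k, rfl, hk⟩
    · rw [mul_zero]
      exact Submodule.zero_mem _
    · rw [← Nat.cast_add]
      exact mem_grZ_nat.2 (hS.mul_mem hm hk)

theorem pull_grZ (hS : S.Functorial) {X Y : 𝒱} (f : X ⟶ Y) {i : ℤ} {a : S.A Y} (ha : a ∈ S.grZ Y i) :
    S.pull f a ∈ S.grZ X i := by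
  rcases grZ_cases ha with rfl | ⟨m, rfl, hm⟩
  · rw [map_zero]
    exact Submodule.zero_mem _
  · exact mem_grZ_nat.2 (hS.pull_gr _ _ _ hm)

/-- the groups `Ch^i(X)^0` for all integers `i` -/
def hgr (S : ChowTheory.{u, v, w} 𝒱) (X : 𝒱) (i : ℤ) : Submodule ℚ (S.A X) :=
  S.grZ X i ⊓ (S.hom X).restrictScalars ℚ

theorem mem_hgr_nat {X : 𝒱} {i : ℕ} {a : S.A X} : a ∈ hgr S X i ↔ a ∈ S.homGr X i :=
  and_congr mem_grZ_nat Iff.rfl

/-! ### Correspondences -/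

variable [HasBinaryProducts 𝒱]

/-- the action of a correspondence as a linear map -/
noncomputable def actL (S : ChowTheory.{u, v, w} 𝒱) {X Y : 𝒱} (Γ : S.A (X ⨯ Y)) :
    S.A X →ₗ[ℚ] S.A Y :=
  S.push (prod.snd : X ⨯ Y ⟶ Y) ∘ₗ (LinearMap.mulLeft ℚ Γ) ∘ₗ
    (S.pull (prod.fst : X ⨯ Y ⟶ X)).toLinearMap

theorem actL_apply {X Y : 𝒱} (Γ : S.A (X ⨯ Y)) (x : S.A X) : actL S Γ x = S.act Γ x := rfl

theorem act_sub {X Y : 𝒱} (Γ Γ' : S.A (X ⨯ Y)) (x : S.A X) :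
    S.act (Γ - Γ') x = S.act Γ x - S.act Γ' x := by
  simp only [ChowTheory.act, sub_mul, map_sub]

theorem act_sum {X Y : 𝒱} {ι : Type} (F : Finset ι) (Γ : ι → S.A (X ⨯ Y)) (x : S.A X) :
    S.act (∑ j ∈ F, Γ j) x = ∑ j ∈ F, S.act (Γ j) x := by
  simp only [ChowTheory.act, Finset.sum_mul, map_sum]

theorem act_smul {X Y : 𝒱} (q : ℚ) (Γ : S.A (X ⨯ Y)) (x : S.A X) :
    S.act (q • Γ) x = q • S.act Γ x := by
  simp only [ChowTheory.act, smul_mul_assoc, map_smul]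

theorem act_zero {X Y : 𝒱} (Γ : S.A (X ⨯ Y)) : S.act Γ 0 = 0 := by
  simp only [ChowTheory.act, map_zero, mul_zero]

theorem comp_sub {X Y Z : 𝒱} (Γ : S.A (X ⨯ Y)) (Δ Δ' : S.A (Y ⨯ Z)) :
    S.comp Γ (Δ - Δ') = S.comp Γ Δ - S.comp Γ Δ' := by
  simp only [ChowTheory.comp, map_sub, mul_sub]

theorem comp_sum {X Y Z : 𝒱} {ι : Type} (F : Finset ι) (Γ : S.A (X ⨯ Y))
    (Δ : ι → S.A (Y ⨯ Z)) : S.comp Γ (∑ j ∈ F, Δ j) = ∑ j ∈ F, S.comp Γ (Δ j) := by
  simp only [ChowTheory.comp, map_sum, Finset.mul_sum]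

theorem act_comp (hS : S.Standard) {X Y Z : 𝒱} (Γ : S.A (X ⨯ Y)) (Δ : S.A (Y ⨯ Z)) (x : S.A X) :
    S.act (S.comp Γ Δ) x = S.act Δ (S.act Γ x) := by
  have h1 : S.act (S.comp Γ Δ) x =
      S.push ((prod.map (𝟙 X) (prod.snd : Y ⨯ Z ⟶ Z)) ≫ prod.snd)
        (S.pull (prod.map (𝟙 X) (prod.snd : Y ⨯ Z ⟶ Z) ≫ prod.fst) x *
          (S.pull (prod.map (𝟙 X) (prod.fst : Y ⨯ Z ⟶ Y)) Γ *
            S.pull (prod.snd : X ⨯ (Y ⨯ Z) ⟶ Y ⨯ Z) Δ)) := by
    rw [ChowTheory.act, ChowTheory.comp, mul_comm, ← hS.projection, ← hS.push_comp, ← hS.pull_comp]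
  have h2 : S.act Δ (S.act Γ x) =
      S.push ((prod.snd : X ⨯ (Y ⨯ Z) ⟶ Y ⨯ Z) ≫ prod.snd)
        (S.pull (prod.snd : X ⨯ (Y ⨯ Z) ⟶ Y ⨯ Z) Δ *
          (S.pull (prod.map (𝟙 X) (prod.fst : Y ⨯ Z ⟶ Y)) Γ *
            S.pull (prod.map (𝟙 X) (prod.fst : Y ⨯ Z ⟶ Y) ≫ prod.fst) x)) := by
    rw [ChowTheory.act, ChowTheory.act, hS.base_change, ← hS.projection, ← hS.push_comp,
      map_mul (S.pull (prod.map (𝟙 X) (prod.fst : Y ⨯ Z ⟶ Y))), ← hS.pull_comp]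
  rw [h1, h2, prod.map_snd, prod.map_fst, prod.map_fst, Category.comp_id]
  congr 1
  ring

theorem act_mulBy (hS : S.Standard) {X : 𝒱} (a x : S.A X) : S.act (S.mulBy a) x = a * x := by
  rw [ChowTheory.act, ChowTheory.mulBy, mul_comm, ← hS.projection, ← hS.push_comp, ← hS.pull_comp,
    prod.lift_fst, prod.lift_snd, hS.push_id, hS.pull_id, mul_comm]

theorem mulBy_grZ (hS : S.Standard) {X : 𝒱} {a : S.A X} {i : ℤ} (ha : a ∈ S.grZ X i) :
    S.mulBy a ∈ S.grZ (X ⨯ X) (i + S.dim X) := by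
  have h := hS.push_gr (prod.lift (𝟙 X) (𝟙 X)) i a ha
  rw [hS.dim_prod] at h
  have e : i + ((S.dim X + S.dim X : ℕ) : ℤ) - S.dim X = i + S.dim X := by push_cast; ring
  rwa [e] at h

theorem comp_grZ (hS : S.Standard) {X Y Z : 𝒱} {Γ : S.A (X ⨯ Y)} {Δ : S.A (Y ⨯ Z)} {a b c : ℤ}
    (hΓ : Γ ∈ S.grZ (X ⨯ Y) a) (hΔ : Δ ∈ S.grZ (Y ⨯ Z) b) (h : a + b = c + S.dim Y) :
    S.comp Γ Δ ∈ S.grZ (X ⨯ Z) c := by
  have h1 := hS.push_gr (prod.map (𝟙 X) (prod.snd : Y ⨯ Z ⟶ Z)) _ _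
    (mul_grZ hS.toGraded (pull_grZ hS.toFunctorial (prod.map (𝟙 X) (prod.fst : Y ⨯ Z ⟶ Y)) hΓ)
      (pull_grZ hS.toFunctorial (prod.snd : X ⨯ (Y ⨯ Z) ⟶ Y ⨯ Z) hΔ))
  rw [hS.dim_prod, hS.dim_prod, hS.dim_prod] at h1
  have e : a + b + ((S.dim X + S.dim Z : ℕ) : ℤ) - ((S.dim X + (S.dim Y + S.dim Z) : ℕ) : ℤ) = c := by
    push_cast
    omega
  rwa [e] at h1

theorem comp_hom_right (hS : S.Standard) {X Y Z : 𝒱} (Γ : S.A (X ⨯ Y)) {Δ : S.A (Y ⨯ Z)}
    (hΔ : Δ ∈ S.hom (Y ⨯ Z)) : S.comp Γ Δ ∈ S.hom (X ⨯ Z) :=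
  hS.push_hom _ _ (Ideal.mul_mem_left _ _ (hS.pull_hom _ _ hΔ))

theorem act_hgr (hS : S.Standard) {X Y : 𝒱} {Γ : S.A (X ⨯ Y)} {x : S.A X} {a i c : ℤ}
    (hΓ : Γ ∈ S.grZ (X ⨯ Y) a) (hx : x ∈ hgr S X i) (h : a + i = c + S.dim X) :
    S.act Γ x ∈ hgr S Y c := by
  refine ⟨?_, hS.push_hom _ _ (Ideal.mul_mem_left _ _ (hS.pull_hom _ _ hx.2))⟩
  have h1 := hS.push_gr (prod.snd : X ⨯ Y ⟶ Y) _ _
    (mul_grZ hS.toGraded hΓ (pull_grZ hS.toFunctorial (prod.fst : X ⨯ Y ⟶ X) hx.1))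
  rw [hS.dim_prod] at h1
  have e : a + i + (S.dim Y : ℤ) - ((S.dim X + S.dim Y : ℕ) : ℤ) = c := by
    push_cast
    omega
  rwa [e] at h1

/-! ### The Lefschetz-Künneth operators on the cycles homologous to zero -/

section

variable (hS : S.Standard) {X : 𝒱}
  (h0 : ∀ a : ℕ, ∀ Γ ∈ S.homGr (X ⨯ X) a, ∀ i : ℕ, ∀ x ∈ S.homGr X i, S.act Γ x = 0)

include h0 in
theorem act_eq_zero' {Γ : S.A (X ⨯ X)} {a i : ℤ} (hΓ : Γ ∈ S.grZ (X ⨯ X) a)
    (hh : Γ ∈ S.hom (X ⨯ X)) {x : S.A X} (hx : x ∈ hgr S X i) : S.act Γ x = 0 := by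
  rcases grZ_cases hΓ with rfl | ⟨m, rfl, hm⟩
  · rw [ChowTheory.act, zero_mul, map_zero]
  · rcases grZ_cases hx.1 with rfl | ⟨k, rfl, hk⟩
    · exact act_zero _
    · exact h0 m Γ ⟨hm, hh⟩ k x ⟨hk, hx.2⟩

include h0 in
theorem act_congr' {Γ Γ' : S.A (X ⨯ X)} {a i : ℤ} (hΓ : Γ ∈ S.grZ (X ⨯ X) a)
    (hΓ' : Γ' ∈ S.grZ (X ⨯ X) a) (hh : S.HomEq Γ Γ') {x : S.A X} (hx : x ∈ hgr S X i) :
    S.act Γ x = S.act Γ' x := by
  rw [← sub_eq_zero, ← act_sub]
  exact act_eq_zero' h0 (Submodule.sub_mem _ hΓ hΓ') hh hx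

variable {L : S.A X} {π : ℤ → S.A (X ⨯ X)} {Λ : S.A (X ⨯ X)} (hL : L ∈ S.gr X 1)
  (hK : S.StandardB L π Λ)

include hS h0 hL hK

/-- the operators of the standard conjecture `B`, which satisfy the relations modulo homological
equivalence, satisfy them on the cycles homologous to zero -/
theorem kunneth : Kunneth (hgr S X) (LinearMap.mulLeft ℚ L) (actL S Λ) (fun j => actL S (π j))
    (S.dim X) := by
  have hLz : L ∈ S.grZ X 1 := by
    have h := mem_grZ_nat.2 hL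
    rwa [Nat.cast_one] at h
  have h1z : (1 : S.A X) ∈ S.grZ X 0 := by
    have h := mem_grZ_nat.2 (hS.one_mem X)
    rwa [Nat.cast_zero] at h
  have hL1 : S.mulBy L ∈ S.grZ (X ⨯ X) (1 + S.dim X) := mulBy_grZ hS hLz
  have h11 : S.mulBy 1 ∈ S.grZ (X ⨯ X) (S.dim X) := by
    have h := mulBy_grZ hS h1z
    rwa [zero_add] at h
  have hπ : ∀ j, π j ∈ S.grZ (X ⨯ X) (S.dim X) := fun j => mem_grZ_nat.2 (hK.π_gr j)
  have hmem : ∀ (j i : ℤ) (x : S.A X), x ∈ hgr S X i → S.act (π j) x ∈ hgr S X i :=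
    fun j i x hx => act_hgr hS (hπ j) hx (by ring)
  have hΛm : ∀ (i : ℤ) (x : S.A X), x ∈ hgr S X i → S.act Λ x ∈ hgr S X (i - 1) :=
    fun i x hx => act_hgr hS hK.Λ_gr hx (by ring)
  have hππ : ∀ j k, S.comp (π k) (π j) ∈ S.grZ (X ⨯ X) (S.dim X) :=
    fun j k => comp_grZ hS (hπ k) (hπ j) rfl
  have hLm : ∀ (i : ℤ) (x : S.A X), x ∈ hgr S X i → L * x ∈ hgr S X (i + 1) := by
    intro i x hx
    refine ⟨?_, Ideal.mul_mem_left _ _ hx.2⟩
    rw [add_comm]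
    exact mul_grZ hS.toGraded hLz hx.1
  have hidem : ∀ (i j : ℤ) (x : S.A X), x ∈ hgr S X i →
      S.act (π j) (S.act (π j) x) = S.act (π j) x := by
    intro i j x hx
    rw [← act_comp hS]
    exact act_congr' h0 (hππ j j) (hπ j) (hK.π_idem j) hx
  have horth : ∀ (i j k : ℤ), j ≠ k → ∀ x : S.A X, x ∈ hgr S X i →
      S.act (π j) (S.act (π k) x) = 0 := by
    intro i j k hjk x hx
    rw [← act_comp hS]
    have h := hK.π_orth k j hjk.symm
    rw [ChowTheory.HomEq, sub_zero] at h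
    exact act_eq_zero' h0 (hππ j k) h hx
  have hsum : ∀ (i : ℤ) (x : S.A X), x ∈ hgr S X i →
      ∑ j ∈ Finset.Icc (0 : ℤ) (2 * (S.dim X : ℤ)), S.act (π j) x = x := by
    intro i x hx
    rw [← act_sum, act_congr' h0 (Submodule.sum_mem _ fun j _ => hπ j) h11 hK.sum_π hx,
      act_mulBy hS, one_mul]
  refine
    { L_mem := hLm
      Λ_mem := hΛm
      π_mem := fun i j x hx => hmem j i x hx
      low := fun i hi x hx => grZ_neg hi hx.1
      high := fun i hi x hx => grZ_large hS.toGraded (by omega) hx.1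
      sum_π := hsum
      π_range := ?_
      π_idem := hidem
      π_orth := horth
      L_π := ?_
      Λ_π := ?_
      comm := ?_ }
  · intro i j hj x hx
    change S.act (π j) x = 0
    conv_lhs => rw [← hsum i x hx]
    rw [← actL_apply, map_sum]
    refine Finset.sum_eq_zero fun k hk => ?_
    rw [actL_apply]
    refine horth i j k ?_ x hx
    rintro rfl
    rw [Finset.mem_Icc] at hk
    exact hj hk
  · intro i j x hx
    change L * S.act (π j) x = S.act (π (j + 2)) (L * x)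
    have h := act_congr' h0 (comp_grZ hS (hπ j) hL1 (c := 1 + S.dim X) (by ring))
      (comp_grZ hS hL1 (hπ (j + 2)) (c := 1 + S.dim X) (by ring)) (hK.L_π j) hx
    rwa [act_comp hS, act_comp hS, act_mulBy hS, act_mulBy hS] at h
  · intro i j x hx
    change S.act Λ (S.act (π j) x) = S.act (π (j - 2)) (S.act Λ x)
    have h1 := hK.Λ_π (j - 2)
    rw [sub_add_cancel] at h1
    have h := act_congr' h0 (comp_grZ hS (hπ j) hK.Λ_gr (c := (S.dim X : ℤ) - 1) (by ring))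
      (comp_grZ hS hK.Λ_gr (hπ (j - 2)) (c := (S.dim X : ℤ) - 1) (by ring)) h1 hx
    rwa [act_comp hS, act_comp hS] at h
  · intro i x hx
    change L * S.act Λ x - S.act Λ (L * x) =
      ∑ j ∈ Finset.Icc (0 : ℤ) (2 * (S.dim X : ℤ)), ((j - S.dim X : ℤ) : ℚ) • S.act (π j) x
    have h := act_congr' h0 (a := (S.dim X : ℤ)) (Submodule.sub_mem _
      (comp_grZ hS hK.Λ_gr hL1 (by ring)) (comp_grZ hS hL1 hK.Λ_gr (by ring)))
      (Submodule.sum_mem _ fun j _ => Submodule.smul_mem _ _ (hπ j)) hK.comm hx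
    rw [act_sub, act_comp hS, act_comp hS, act_mulBy hS, act_mulBy hS, act_sum] at h
    rw [h]
    exact Finset.sum_congr rfl fun j _ => act_smul _ _ _

/-- Q1 is purity, if the correspondences homologous to zero act as zero -/
theorem lefschetz_iff : S.Lefschetz L ↔
    ∀ i : ℕ, ∀ x ∈ S.homGr X i, S.act (π (2 * (i : ℤ) - 1)) x = x := by
  have hk := kunneth hS h0 hL hK
  have hp := hk.purity
  have hz : ∀ i : ℤ, i ≤ 0 → ∀ x ∈ hgr S X i, x = 0 := by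
    intro i hi x hx
    rcases grZ_cases hx.1 with h | ⟨m, rfl, hm⟩
    · exact h
    · have : m = 0 := by omega
      subst this
      exact hS.hom_zero hm hx.2
  have e1 : S.Lefschetz L ↔ ∀ (i : ℤ) (k : ℕ), (k : ℤ) = S.dim X + 1 - 2 * i →
      Set.BijOn (LinearMap.mulLeft ℚ L ^ k) (hgr S X i) (hgr S X (i + k)) := by
    have hset : ∀ a : ℕ, (hgr S X a : Set (S.A X)) = S.homGr X a := by
      intro a
      ext x
      exact mem_hgr_nat
    have hpow : ∀ k : ℕ, (⇑(LinearMap.mulLeft ℚ L ^ k) : S.A X → S.A X) = fun x => L ^ k * x := by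
      intro k
      funext x
      rw [LinearMap.pow_mulLeft]
      rfl
    constructor
    · intro hQ i k hik
      rw [hpow]
      rcases le_or_gt i 0 with hi | hi
      · have h1 : (hgr S X i : Set (S.A X)) = {0} := by
          ext x
          exact ⟨fun h => hz i hi x h, fun h => by rw [Set.mem_singleton_iff.1 h]; exact Submodule.zero_mem _⟩
        have h2 : (hgr S X (i + k) : Set (S.A X)) = {0} := by
          ext x
          exact ⟨fun h => grZ_large hS.toGraded (by omega) h.1,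
            fun h => by rw [Set.mem_singleton_iff.1 h]; exact Submodule.zero_mem _⟩
        rw [h1, h2]
        refine ⟨?_, ?_, ?_⟩
        · intro x hx
          rw [Set.mem_singleton_iff] at hx ⊢
          rw [hx]
          exact mul_zero _
        · intro x hx y hy _
          rw [Set.mem_singleton_iff.1 hx, Set.mem_singleton_iff.1 hy]
        · intro y hy
          exact ⟨0, rfl, by rw [Set.mem_singleton_iff.1 hy]; exact mul_zero _⟩
      · obtain ⟨m, rfl⟩ := Int.eq_ofNat_of_zero_le hi.le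
        have h1 := hQ m (by omega) (by omega)
        have e : (m : ℤ) + k = ((S.dim X + 1 - m : ℕ) : ℤ) := by omega
        have e' : S.dim X + 1 - 2 * m = k := by omega
        rw [e, hset, hset]
        rwa [e'] at h1
    · intro hQ i h1 h2
      have h3 := hQ i (S.dim X + 1 - 2 * i) (by omega)
      have e : (i : ℤ) + ((S.dim X + 1 - 2 * i : ℕ) : ℤ) = ((S.dim X + 1 - i : ℕ) : ℤ) := by omega
      rw [e, hset, hset, hpow] at h3
      exact h3
  rw [e1, hp]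
  constructor
  · intro h i x hx
    have hx' : x ∈ hgr S X i := mem_hgr_nat.2 hx
    have hs := hk.sum_π i x hx'
    by_cases hr : 2 * (i : ℤ) - 1 ∈ Finset.Icc (0 : ℤ) (2 * (S.dim X : ℤ))
    · rwa [Finset.sum_eq_single_of_mem _ hr (fun j _ hj => h i j hj x hx')] at hs
    · rw [Finset.sum_eq_zero] at hs
      · rw [← hs, act_zero]
      · intro j hj
        exact h i j (fun hh => hr (hh ▸ hj)) x hx'
  · intro h i j hj x hx
    rcases grZ_cases hx.1 with rfl | ⟨m, rfl, hm⟩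
    · exact map_zero _
    · have h1 := h m x ⟨hm, hx.2⟩
      have h2 := hk.π_orth m j (2 * m - 1) hj x hx
      change S.act (π j) (S.act (π (2 * (m : ℤ) - 1)) x) = 0 at h2
      rw [h1] at h2
      exact h2

end

/-! ### The conjecture of Bloch and Beilinson -/

section

variable (hS : S.Standard) {X Y : 𝒱} {L : S.A X} {π : ℤ → S.A (X ⨯ X)} {Λ : S.A (X ⨯ X)}
  (hK : S.StandardB L π Λ)

include hS hK

/-- purity and the vanishing of the action of the correspondences homologous to zero give the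
conjecture of Bloch and Beilinson -/
theorem blochBeilinsonFor_of
    (h0 : ∀ a : ℕ, ∀ Γ ∈ S.homGr (X ⨯ Y) a, ∀ i : ℕ, ∀ x ∈ S.homGr X i, S.act Γ x = 0)
    (hp : ∀ i : ℕ, ∀ x ∈ S.homGr X i, S.act (π (2 * (i : ℤ) - 1)) x = x) :
    S.BlochBeilinsonFor X Y π := by
  intro i a Γ hΓ h x hx
  rw [← hp i x hx, ← act_comp hS]
  have h1 : S.comp (π (2 * (i : ℤ) - 1)) Γ ∈ S.grZ (X ⨯ Y) a :=
    comp_grZ hS (mem_grZ_nat.2 (hK.π_gr _)) (mem_grZ_nat.2 hΓ) (by ring)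
  exact h0 a _ ⟨mem_grZ_nat.1 h1, h⟩ i x hx

omit hK in
/-- the conjecture of Bloch and Beilinson implies that the correspondences homologous to zero act
as zero -/
theorem act_eq_zero_of_blochBeilinsonFor (hBB : S.BlochBeilinsonFor X Y π) :
    ∀ a : ℕ, ∀ Γ ∈ S.homGr (X ⨯ Y) a, ∀ i : ℕ, ∀ x ∈ S.homGr X i, S.act Γ x = 0 :=
  fun a Γ hΓ i x hx => hBB i a Γ hΓ.1 (comp_hom_right hS _ hΓ.2) x hx

/-- the conjecture of Bloch and Beilinson implies purity -/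
theorem pure_of_blochBeilinsonFor (hBB : S.BlochBeilinsonFor X X π) :
    ∀ i : ℕ, ∀ x ∈ S.homGr X i, S.act (π (2 * (i : ℤ) - 1)) x = x := by
  intro i x hx
  by_cases hr : 2 * (i : ℤ) - 1 ∈ Finset.Icc (0 : ℤ) (2 * (S.dim X : ℤ))
  swap
  · -- there is nothing in this codimension
    have hx0 : x = 0 := by
      rw [Finset.mem_Icc] at hr
      rcases Nat.eq_zero_or_pos i with hi | hi
      · subst hi
        exact hS.hom_zero hx.1 hx.2
      · exact hS.gr_large (by omega) hx.1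
    rw [hx0, act_zero]
  have h1z : (1 : S.A X) ∈ S.grZ X 0 := by
    have h := mem_grZ_nat.2 (hS.one_mem X)
    rwa [Nat.cast_zero] at h
  have h1 : S.mulBy 1 ∈ S.gr (X ⨯ X) (S.dim X) := by
    have h := mulBy_grZ hS h1z
    rw [zero_add] at h
    exact mem_grZ_nat.1 h
  have h2 : S.comp (π (2 * (i : ℤ) - 1)) (S.mulBy 1 - π (2 * (i : ℤ) - 1)) ∈ S.hom (X ⨯ X) := by
    set j := 2 * (i : ℤ) - 1 with hj
    have h3 : S.comp (π j) (∑ k ∈ Finset.Icc (0 : ℤ) (2 * (S.dim X : ℤ)), π k - S.mulBy 1) ∈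
        S.hom (X ⨯ X) := comp_hom_right hS _ hK.sum_π
    have h4 : S.comp (π j) (∑ k ∈ Finset.Icc (0 : ℤ) (2 * (S.dim X : ℤ)), π k) -
        S.comp (π j) (π j) ∈ S.hom (X ⨯ X) := by
      rw [comp_sum, ← Finset.add_sum_erase _ _ hr, add_sub_cancel_left]
      refine Ideal.sum_mem _ fun k hk => ?_
      have h5 := hK.π_orth j k (Finset.ne_of_mem_erase hk).symm
      rwa [ChowTheory.HomEq, sub_zero] at h5
    rw [comp_sub] at h3 ⊢
    have h6 := Submodule.sub_mem _ h4 h3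
    rwa [show S.comp (π j) (∑ k ∈ Finset.Icc (0 : ℤ) (2 * (S.dim X : ℤ)), π k) -
      S.comp (π j) (π j) - (S.comp (π j) (∑ k ∈ Finset.Icc (0 : ℤ) (2 * (S.dim X : ℤ)), π k) -
      S.comp (π j) (S.mulBy 1)) = S.comp (π j) (S.mulBy 1) - S.comp (π j) (π j) by abel] at h6
  have h3 := hBB i _ (S.mulBy 1 - π (2 * (i : ℤ) - 1)) (Submodule.sub_mem _ h1 (hK.π_gr _)) h2 x hx
  rw [act_sub, act_mulBy hS, one_mul, sub_eq_zero] at h3
  exact h3.symm

/-- the conjecture of Bloch and Beilinson for the correspondences from `X` to `X` implies Q1 -/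
theorem lefschetz_of_blochBeilinsonFor (hL : L ∈ S.gr X 1) (hBB : S.BlochBeilinsonFor X X π) :
    S.Lefschetz L :=
  (lefschetz_iff hS (act_eq_zero_of_blochBeilinsonFor hS hBB) hL hK).2
    (pure_of_blochBeilinsonFor hS hK hBB)

end

end Pool.Agent.Helper21.NN
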